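import Pool.Agent.H852R2.TE.Defs
import Pool.Agent.H852R2.DM.CORE
import Pool.Agent.H852R2.DM.S.PAIRMIX
import Pool.Agent.H14R2.RC.Asy
import Pool.Agent.H14R2.RC.Util

namespace TE852
open RC14 RC852 DM852 Finset Filter Equiv Topology

/-- deterministic part of the diameter theorem -/
theorem DETE (ε a δ c : ℝ) (hε : 0 < ε) (ha : 0 < a) (ha1 : a ≤ 1 / 100) (hδ : 0 < δ)
    (hδ1 : δ ≤ 1 / 8) (hδε : 2 * δ ≤ ε / 8) (haε : Real.log 2 / Real.log (1 / (5 * a)) ≤ ε / 8)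
    (hc : 0 < c) (k I : ℕ) (hk : 1 ≤ k) (hI : 1 ≤ I) :
    ∀ᶠ n : ℕ in atTop, ∀ (y : Fin k → Alt n) (X Y : Alt n), Len y 1 X → Len y 1 Y →
      Good1 n (Rr (1 - δ) n) c y →
      (∃ i < I, RootOK a ((X : Perm (Fin n)) * (Y : Perm (Fin n)) ^ i)) →
      ∀ g : Alt n, Len y ⌊(n : ℝ) ^ (1 + ε)⌋₊ g := by
  obtain ⟨C, hC, hPM⟩ := PAIRMIX k hk c hc
  -- constants
  set K1 : ℝ := 8 * k / c with hK1
  have hK1pos : 0 < K1 := by
    have : (0 : ℝ) < k := by exact_mod_cast hk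
    positivity
  filter_upwards [CHAIN a ha ha1, hPM, ev_log 0 (δ / 3) 1 (by linarith),
    ev_le (1 - δ) 1 (4 * (2 * K1 + 2)) (by linarith),
    ev_le (1 - 2 * δ) 1 (4 / a) (by linarith),
    ev_const (1 - 2 * δ) (480 / a) (by linarith), ev_const (1 - δ) 2 (by linarith),
    ev_le (2 + ε / 8) (2 + 7 * ε / 8) (960 / a * (18 * (2 + 8 * (I + 2 * (C + 1))))) (by linarith),
    ev_const (1 + ε) 2 (by linarith), ev_loggt 1,
    eventually_ge_atTop 16]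
    with n hchain hPM hlog hLc ht2 ht3 hm2 hfin hM2 hlog1 hn16
  intro y X Y hXl hYl hgood hroot g
  have hn : (0 : ℝ) < n := by
    have : (16 : ℝ) ≤ n := by exact_mod_cast hn16
    linarith
  have hn1 : (1 : ℝ) ≤ n := by
    have : (16 : ℝ) ≤ n := by exact_mod_cast hn16
    linarith
  set l : ℝ := Real.log n with hl
  have hl0 : 0 < l := by linarith
  set m : ℕ := ⌈C * l⌉₊ with hm
  have hm1 : 1 ≤ m := by
    rw [hm, Nat.one_le_ceil_iff]; positivity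
  have hmle : (m : ℝ) ≤ (C + 1) * l := by
    have := (Nat.ceil_lt_add_one (by positivity : 0 ≤ C * l)).le
    rw [← hm] at this
    linarith
  have hlδ : l ≤ (n : ℝ) ^ (δ / 3) := by
    simpa using hlog
  have hlδ' : l ≤ (n : ℝ) ^ δ := by
    refine hlδ.trans (Real.rpow_le_rpow_of_exponent_le hn1 (by linarith))
  -- mixing
  have hR2 : 2 ≤ Rr (1 - δ) n := by
    unfold Rr
    apply Nat.le_floor
    exact_mod_cast hm2
  have hmix : Mix2 (gx (xl y) m) :=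
    (hPM y (fun j hj1 hj2 => hgood j hj1 (hj2.trans hR2)) m (Nat.le_ceil _)).1
  -- the element r
  obtain ⟨i, hi, lw, hlw, hs1, hs2⟩ := hroot
  set r0 : Alt n := (X * Y ^ i) ^ lw with hr0
  have hr0c : ((r0 : Alt n) : Perm (Fin n)) = ((X : Perm (Fin n)) * (Y : Perm (Fin n)) ^ i) ^ lw := by
    rw [hr0]; push_cast; rfl
  have hlwn : lw ≤ n := by
    have h1 := hlw.2
    have h2 : (lw : ℝ) ≤ n := by
      refine h1.trans ?_
      nlinarith
    exact_mod_cast h2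
  have hr0l : Len y (n * I) r0 := by
    have h1 : Len y (1 + i * 1) (X * Y ^ i) := hXl.mul (hYl.pow i)
    refine (h1.pow lw).mono ?_
    exact Nat.mul_le_mul hlwn (by omega)
  set t : ℝ := (n : ℝ) ^ (1 - 2 * δ) with ht
  have hta : t ≤ a / 4 * n := by
    rw [Real.rpow_one] at ht2
    have : 4 / a * t ≤ n := ht2
    rw [div_mul_eq_mul_div, div_le_iff₀ ha] at this
    linarith
  have ht1 : (n : ℝ) ^ (1 / 4 : ℝ) ≤ t :=
    Real.rpow_le_rpow_of_exponent_le hn1 (by linarith)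
  have hmix' : Mix2 (fun v : Fin (2 * m) → Fin (k + k) × Bool =>
      ((wrd (xl y) v : Alt n) : Perm (Fin n))) := hmix
  have : Nonempty (Fin (2 * m) → Fin (k + k) × Bool) :=
    ⟨fun _ => (⟨0, by omega⟩, true)⟩
  obtain ⟨s, hs3, hs4, L', hL', hL'2⟩ := hchain k y (Fin (2 * m) → Fin (k + k) × Bool)
    (fun v => wrd (xl y) v) (2 * m) (n * I) hmix'
    (fun v => Len_xl y _ (fun i => Len.letter _) (2 * m) v) r0 hr0l
    (by rw [hr0c]; exact hs1) (by rw [hr0c]; exact hs2) t ht1 hta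
  set r : ℕ := (s : Perm (Fin n)).support.card with hr
  have ht0 : 0 < t := Real.rpow_pos_of_pos hn _
  have ht480 : 480 / a ≤ t := ht3
  have hr24 : (24 : ℝ) ≤ r := by
    refine le_trans ?_ hs3
    rw [div_le_iff₀ ha] at ht480
    linarith
  -- connectivity
  have hrt : (r : ℝ) ≤ (n : ℝ) ^ (1 - 2 * δ) := hs4
  have hrm : r ≤ Rr (1 - δ) n := by
    unfold Rr
    apply Nat.le_floor
    refine hrt.trans ?_
    exact Real.rpow_le_rpow_of_exponent_le hn1 (by linarith)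
  have hr2 : r + 2 ≤ n := by
    have h1 : (r : ℝ) + 2 ≤ n := by
      have h2 : t ≤ 1 / 400 * n := by nlinarith
      have h3 : (16 : ℝ) ≤ n := by exact_mod_cast hn16
      linarith
    exact_mod_cast h1
  obtain ⟨Lc, hLcdef⟩ : ∃ Lc : ℕ, Lc = n := ⟨n, rfl⟩
  have hconn : ∀ a a' : Tup r n, ∃ g : Alt n, Len y Lc g ∧ mv (g : Perm (Fin n)) a = a' := by
    have hy : Good1 n r c y := fun j hj1 hj2 => hgood j hj1 (hj2.trans hrm)
    refine CONN n r k hr2 hk c hc y hy Lc ?_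
    have h1 : 8 * (k : ℝ) / c * (r * l + 1) ≤ K1 * (2 * ((n : ℝ) ^ (1 - 2 * δ) * l)) := by
      rw [← hK1]
      have h4 : (r : ℝ) * l + 1 ≤ 2 * ((n : ℝ) ^ (1 - 2 * δ) * l) := by
        have h5 : (1 : ℝ) ≤ (n : ℝ) ^ (1 - 2 * δ) * l := by
          have h7 : (1 : ℝ) ≤ (n : ℝ) ^ (1 - 2 * δ) := Real.one_le_rpow hn1 (by linarith)
          nlinarith
        have h6 : (r : ℝ) * l ≤ (n : ℝ) ^ (1 - 2 * δ) * l :=
          mul_le_mul_of_nonneg_right hrt hl0.le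
        linarith
      exact mul_le_mul_of_nonneg_left h4 hK1pos.le
    have h2 : K1 * (2 * ((n : ℝ) ^ (1 - 2 * δ) * l)) ≤ 2 * K1 * (n : ℝ) ^ (1 - δ) := by
      calc K1 * (2 * ((n : ℝ) ^ (1 - 2 * δ) * l))
          = 2 * K1 * (l * (n : ℝ) ^ (1 - 2 * δ)) := by ring
        _ ≤ 2 * K1 * ((n : ℝ) ^ δ * (n : ℝ) ^ (1 - 2 * δ)) := by gcongr
        _ = 2 * K1 * (n : ℝ) ^ (1 - δ) := by
          rw [← Real.rpow_add hn]; congr 2; ring
    have h3 : (1 : ℝ) ≤ (n : ℝ) ^ (1 - δ) := Real.one_le_rpow hn1 (by linarith)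
    have h4 : 2 * K1 * (n : ℝ) ^ (1 - δ) + 1 ≤ (2 * K1 + 2) * (n : ℝ) ^ (1 - δ) := by
      linarith
    have h5 : 4 * ((2 * K1 + 2) * (n : ℝ) ^ (1 - δ)) ≤ n := by
      rw [Real.rpow_one] at hLc
      rw [← mul_assoc]; exact hLc
    have h6 : 0 ≤ (2 * K1 + 2) * (n : ℝ) ^ (1 - δ) := by positivity
    have h7 : 8 * (k : ℝ) / c * (r * l + 1) + 1 ≤ (n : ℝ) := by
      calc 8 * (k : ℝ) / c * (r * l + 1) + 1 ≤ 2 * K1 * (n : ℝ) ^ (1 - δ) + 1 :=
            add_le_add (h1.trans h2) le_rfl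
        _ ≤ (2 * K1 + 2) * (n : ℝ) ^ (1 - δ) := h4
        _ ≤ 4 * ((2 * K1 + 2) * (n : ℝ) ^ (1 - δ)) := by linarith
        _ ≤ n := h5
    rw [hLcdef]
    exact h7
  -- final count
  set M : ℕ := ⌊(n : ℝ) ^ (1 + ε)⌋₊ with hMdef
  have hMge : (n : ℝ) ^ (1 + ε) / 2 ≤ M := by
    have h1 : (n : ℝ) ^ (1 + ε) < (M : ℝ) + 1 := Nat.lt_floor_add_one _
    linarith
  have hrn : 24 ≤ r := by exact_mod_cast hr24
  refine ALL_len y s r Lc L' (r / 12) hr.symm (by omega) (by omega) hconn hL' g M ?_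
  have hdle : r / 12 ≤ n := by omega
  have hdge : a * t / 480 ≤ ((r / 12 : ℕ) : ℝ) := by
    have h1 : (r : ℝ) ≤ 24 * ((r / 12 : ℕ) : ℝ) := by
      have : r ≤ 24 * (r / 12) := by omega
      exact_mod_cast this
    linarith
  have hgoal : ((2 * n + 16 * (r / 12) : ℕ) : ℝ) * ((2 * Lc + L' : ℕ) : ℝ) ≤
      (M : ℝ) * ((r / 12 : ℕ) : ℝ) := by
    have h1 : ((2 * n + 16 * (r / 12) : ℕ) : ℝ) ≤ 18 * n := by
      have : 2 * n + 16 * (r / 12) ≤ 18 * n := by omega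
      exact_mod_cast this
    have hpow1 : (1 : ℝ) ≤ (n : ℝ) ^ (ε / 8) := Real.one_le_rpow hn1 (by linarith)
    have hln : l ≤ n := by
      have := Real.log_le_sub_one_of_pos hn
      linarith
    have hL'3 : (L' : ℝ) ≤ 8 * (I + 2 * (C + 1)) * (n * (n : ℝ) ^ (ε / 8)) := by
      refine hL'2.trans ?_
      have h3 : (n : ℝ) ^ (Real.log 2 / Real.log (1 / (5 * a))) ≤ (n : ℝ) ^ (ε / 8) :=
        Real.rpow_le_rpow_of_exponent_le hn1 haε
      have h4 : ((n * I : ℕ) : ℝ) + ((2 * m : ℕ) : ℝ) ≤ (I + 2 * (C + 1)) * n := by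
        push_cast
        nlinarith
      calc 8 * (((n * I : ℕ) : ℝ) + ((2 * m : ℕ) : ℝ)) *
            (n : ℝ) ^ (Real.log 2 / Real.log (1 / (5 * a)))
          ≤ 8 * ((I + 2 * (C + 1)) * n) * (n : ℝ) ^ (ε / 8) := by gcongr
        _ = _ := by ring
    have h2 : ((2 * Lc + L' : ℕ) : ℝ) ≤ (2 + 8 * (I + 2 * (C + 1))) * (n * (n : ℝ) ^ (ε / 8)) := by
      push_cast
      have h3 : (Lc : ℝ) ≤ n * (n : ℝ) ^ (ε / 8) := by
        calc (Lc : ℝ) = n * 1 := by rw [hLcdef]; ring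
          _ ≤ n * (n : ℝ) ^ (ε / 8) := by gcongr
      linarith
    calc ((2 * n + 16 * (r / 12) : ℕ) : ℝ) * ((2 * Lc + L' : ℕ) : ℝ)
        ≤ (18 * n) * ((2 + 8 * (I + 2 * (C + 1))) * (n * (n : ℝ) ^ (ε / 8))) := by gcongr
      _ = 18 * (2 + 8 * (I + 2 * (C + 1))) * (n : ℝ) ^ (2 + ε / 8) := by
          rw [Real.rpow_add hn, Real.rpow_two]; ring
      _ = a / 960 * (960 / a * (18 * (2 + 8 * (I + 2 * (C + 1)))) * (n : ℝ) ^ (2 + ε / 8)) := by
          field_simp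
      _ ≤ a / 960 * (n : ℝ) ^ (2 + 7 * ε / 8) := by gcongr
      _ ≤ a / 960 * (n : ℝ) ^ ((1 + ε) + (1 - 2 * δ)) :=
          mul_le_mul_of_nonneg_left
            (Real.rpow_le_rpow_of_exponent_le hn1 (by linarith)) (by positivity)
      _ = ((n : ℝ) ^ (1 + ε) / 2) * (a * t / 480) := by
          rw [Real.rpow_add hn, ht]; ring
      _ ≤ (M : ℝ) * ((r / 12 : ℕ) : ℝ) := by gcongr
  exact_mod_cast hgoal

end TE852
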