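import Pool.Agent.H275R2.TE.TEMAIN

namespace TE852
open RC14 RC852 Finset Filter Equiv

/-- the final result: fixed number of permutations, all levels `≤ n^s` with `s < 1` -/
theorem TEMAIN (s : ℝ) (hs : s < 1) : Hyp s := TEMAIN' s hs

end TE852
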