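import Pool.Agent.H852R2.TE.DETE
import Pool.Agent.H852R2.TE.S.FIN
import Pool.Agent.H100R2.EX.MARG

namespace TE852
open RC14 RC852 DM852 Finset Filter Equiv Topology

/-- the diameter theorem -/
theorem DIAME (ε : ℝ) (hε : 0 < ε) : ∃ k0 : ℕ, ∀ k ≥ k0, ∀ ε0 : ℝ, 0 < ε0 →
    ∀ᶠ n : ℕ in atTop, (Nat.card {y : Fin k → Alt n //
      ¬ ∀ g : Alt n, Len y ⌊(n : ℝ) ^ (1 + ε)⌋₊ g} : ℝ) ≤
        ε0 * (Fintype.card (Alt n) : ℝ) ^ k := by
  set δ : ℝ := min (ε / 16) (1 / 8) with hδdef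
  have hδ : 0 < δ := lt_min (by positivity) (by norm_num)
  have hδ1 : δ ≤ 1 / 8 := min_le_right _ _
  have hδε : 2 * δ ≤ ε / 8 := by
    have : δ ≤ ε / 16 := min_le_left _ _
    linarith
  set a : ℝ := min (1 / 100) (1 / 5 * (2 : ℝ) ^ (-(8 / ε))) with hadef
  have ha : 0 < a := lt_min (by norm_num) (by positivity)
  have ha1 : a ≤ 1 / 100 := min_le_left _ _
  have haε : Real.log 2 / Real.log (1 / (5 * a)) ≤ ε / 8 := by
    have h1 : 5 * a ≤ (2 : ℝ) ^ (-(8 / ε)) := by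
      have : a ≤ 1 / 5 * (2 : ℝ) ^ (-(8 / ε)) := min_le_right _ _
      linarith
    have hlog2 : 0 < Real.log 2 := Real.log_pos (by norm_num)
    have h2 : 8 / ε * Real.log 2 ≤ Real.log (1 / (5 * a)) := by
      rw [one_div, Real.log_inv]
      have h3 : Real.log (5 * a) ≤ Real.log ((2 : ℝ) ^ (-(8 / ε))) :=
        Real.log_le_log (by positivity) h1
      rw [Real.log_rpow (by norm_num)] at h3
      linarith
    have h4 : 0 < 8 / ε * Real.log 2 := by positivity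
    rw [div_le_iff₀ (by linarith)]
    calc Real.log 2 = ε / 8 * (8 / ε * Real.log 2) := by field_simp
      _ ≤ _ := by gcongr
  obtain ⟨k0, hk0⟩ := GAPE (1 - δ) (TEMAIN (1 - δ) (by linarith))
  refine ⟨k0 + 2, fun k hk ε0 hε0 => ?_⟩
  obtain ⟨c, hc, B, hB, hgap⟩ := hk0 k (by omega)
  obtain ⟨I0, hI0⟩ := SAMPLE a ha (by linarith) (ε0 / 2) (by positivity)
  let κ : Fin 2 ↪ Fin k := ⟨fun i => ⟨i, by omega⟩, fun i j h => by
    simpa [Fin.ext_iff] using h⟩
  have hlim : ∀ᶠ n : ℕ in atTop, B / (ε0 / 2) ≤ (n : ℝ) ^ (1 : ℝ) := ev_const 1 _ (by norm_num)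
  filter_upwards [hgap, hI0, DETE ε a δ c hε ha ha1 hδ hδ1 hδε haε hc k (I0 + 1) (by omega)
    (by omega), hlim, eventually_ge_atTop 1] with n hgap hS hD hlim hn1
  have hn : (0 : ℝ) < n := by exact_mod_cast hn1
  set A : ℝ := (Fintype.card (Alt n) : ℝ) with hA
  have hA0 : 0 < A := by rw [hA]; exact_mod_cast Fintype.card_pos
  rw [Real.rpow_one, div_le_iff₀ (by positivity)] at hlim
  -- the pair event
  let Q : (Fin 2 → Alt n) → Prop := fun p => ¬ ∃ i < I0,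
    RootOK a ((p 0 : Perm (Fin n)) * (p 1 : Perm (Fin n)) ^ i)
  have h1 : (Nat.card {p : Fin 2 → Alt n // Q p} : ℝ) ≤ ε0 / 2 * A ^ 2 := by
    refine le_trans ?_ hS
    rw [RC14.card_equiv (finTwoArrowEquiv (Alt n)) Q (fun p => ¬ ∃ i < I0,
      RootOK a ((p.1 : Perm (Fin n)) * (p.2 : Perm (Fin n)) ^ i)) (fun z => Iff.rfl)]
  have h2 : (Nat.card {y : Fin k → Alt n // Q (fun i => y (κ i))} : ℝ) ≤ ε0 / 2 * A ^ k := by
    have h3 := MARG (A := Alt n) κ Q
    rw [Fintype.card_fin, Fintype.card_fin] at h3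
    have h4 : (Nat.card {y : Fin k → Alt n // Q (fun i => y (κ i))} : ℝ) * A ^ 2 =
        (Nat.card {p : Fin 2 → Alt n // Q p} : ℝ) * A ^ k := by
      rw [hA]; exact_mod_cast h3
    have h5 : (Nat.card {y : Fin k → Alt n // Q (fun i => y (κ i))} : ℝ) * A ^ 2 ≤
        (ε0 / 2 * A ^ k) * A ^ 2 := by
      rw [h4]
      calc _ ≤ (ε0 / 2 * A ^ 2) * A ^ k := by gcongr
        _ = _ := by ring
    exact le_of_mul_le_mul_right h5 (by positivity)
  have h6 : (Nat.card {y : Fin k → Alt n //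
      ¬ ∀ g : Alt n, Len y ⌊(n : ℝ) ^ (1 + ε)⌋₊ g} : ℝ) ≤
      (Nat.card {y : Fin k → Alt n // ¬ Good1 n (Rr (1 - δ) n) c y} : ℝ) +
        Nat.card {y : Fin k → Alt n // Q (fun i => y (κ i))} := by
    have h7 := RC14.card_union (fun y : Fin k → Alt n =>
      ¬ ∀ g : Alt n, Len y ⌊(n : ℝ) ^ (1 + ε)⌋₊ g)
      (fun (b : Bool) (y : Fin k → Alt n) => if b then ¬ Good1 n (Rr (1 - δ) n) c y
        else Q (fun i => y (κ i))) (by
        intro y hy
        by_contra hcon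
        push Not at hcon
        have h8 := hcon true
        have h9 := hcon false
        simp only [if_true, not_not] at h8
        simp only [Bool.false_eq_true, if_false, Q, not_not] at h9
        obtain ⟨i, hi, h10⟩ := h9
        exact hy (hD y (y (κ 0)) (y (κ 1)) (Len.letter _) (Len.letter _) h8
          ⟨i, by omega, h10⟩))
    rw [Fintype.sum_bool] at h7
    simp only [if_true, Bool.false_eq_true, if_false] at h7
    exact_mod_cast h7
  have h11 : B / (n : ℝ) ≤ ε0 / 2 := by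
    rw [div_le_iff₀ hn]
    linarith
  calc _ ≤ _ := h6
    _ ≤ B / (n : ℝ) * A ^ k + ε0 / 2 * A ^ k := add_le_add hgap h2
    _ ≤ ε0 / 2 * A ^ k + ε0 / 2 * A ^ k := by gcongr
    _ = ε0 * A ^ k := by ring

end TE852
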