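import Pool.Agent.H852R2.EX.Par
import Pool.Agent.H14R2.RC.R1

/-!
Definitions for the project TE (MP_75608d_al): for a fixed number of random even permutations, a
spectral gap for the action on `r`-tuples for all `r ≤ n^{1-δ}`.
-/

namespace TE852
open RC14 RC852 Finset Equiv

noncomputable section

/-- `⌊n^s⌋` -/
def Rr (s : ℝ) (n : ℕ) : ℕ := ⌊(n : ℝ) ^ s⌋₊

/-- `⌈n^{1-δ/2}⌉` -/
def FE (δ : ℝ) (n : ℕ) : ℕ := ⌈(n : ℝ) ^ (1 - δ / 2)⌉₊

/-- `x` followed by as many identity elements -/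
def lz {G : Type*} [Group G] {a : ℕ} (x : Fin a → G) : Fin (a + a) → G := Fin.append x fun _ => 1

/-- the family `g` moves every `r`-tuple to every `r`-tuple with at most twice the uniform
probability -/
def MixT (r : ℕ) {n : ℕ} {K : Type*} [Fintype K] (g : K → Perm (Fin n)) : Prop :=
  ∀ y z : Tup r n, (#{k | mv (g k) y = z} : ℝ) * Fintype.card (Tup r n) ≤ 2 * Fintype.card K

/-- half of the number of blocks for the level `j`, if the blocks mix `r`-tuples -/
def LL (r j : ℕ) : ℕ := 32 * (j / r + 1)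

/-- few block words of length `2 LL` have many fixed points, for all levels `n^s ≤ j ≤ n^{s+δ}` -/
def GoodE (δ s : ℝ) {n q : ℕ} {K : Type*} [Fintype K] (g : K → Perm (Fin n))
    (b : Fin q → Perm (Fin n)) : Prop :=
  ∀ j, Rr s n ≤ j → j ≤ Rr (s + δ) n →
    (Nat.card {w : Fin (2 * LL (Rr s n) j) → K × (Fin q × Bool) //
        2 * FE δ n ≤ nfix (bwd g b w)} : ℝ) ≤
      (1 / (n : ℝ)) ^ j * (Fintype.card (K × (Fin q × Bool)) : ℝ) ^ (2 * LL (Rr s n) j)

/-- `∑_{i ≤ d} C(M, i)` -/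
def NF (M d : ℕ) : ℝ := ∑ i ∈ Finset.range (d + 1), (M.choose i : ℝ)

/-- the polynomial `∑_{i ≤ d} C(M, i) (1 - T)^i T^(M - i)` -/
def Fp {V : Type*} [NormedAddCommGroup V] [InnerProductSpace ℂ V] (T : Module.End ℂ V)
    (M d : ℕ) : Module.End ℂ V :=
  ∑ i ∈ Finset.range (d + 1), (M.choose i : ℂ) • ((1 - T) ^ i * T ^ (M - i))

/-- the operator `S = F(T) T_b F(T)`, `T` the lazy walk operator of `x` -/
def SF {G : Type*} [Group G] {V : Type*} [NormedAddCommGroup V] [InnerProductSpace ℂ V]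
    {a q : ℕ} (ρ : G →* (V ≃ₗᵢ[ℂ] V)) (x : Fin a → G) (b : Fin q → G) (M d : ℕ) :
    Module.End ℂ V :=
  Fp (Tq ρ (lz x)) M d * Tq ρ b * Fp (Tq ρ (lz x)) M d

end

end TE852
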