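import Pool.Agent.H852R2.TE.S.GFT

/-! Task NDEG. -/

namespace TE852
open RC14 RC852 Finset Filter Equiv

namespace NDEGaux

/-- number of injective tuples in a set -/
lemma tuples_ge {n r F : ℕ} (D : Finset (Fin n)) (hF : F ≤ #D) :
    (F + 1 - r) ^ r ≤ #{y : Tup r n | ∀ l, y l ∈ D} := by
  classical
  refine (Nat.pow_sub_le_descFactorial F r).trans ?_
  refine (Nat.descFactorial_le r hF).trans ?_
  have h1 : Fintype.card (Fin r ↪ D) = (#D).descFactorial r := by
    rw [Fintype.card_embedding_eq, Fintype.card_coe, Fintype.card_fin]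
  rw [← h1, ← Finset.card_univ]
  have h2 : Function.Injective (fun e : Fin r ↪ D => e.trans (Function.Embedding.subtype _)) := by
    intro e e' h
    ext l
    have := DFunLike.congr_fun h l
    simpa using congrArg Fin.val this
  rw [← Finset.card_image_of_injective _ h2]
  apply Finset.card_le_card
  intro y hy
  rw [Finset.mem_image] at hy
  obtain ⟨e, _, rfl⟩ := hy
  simp only [Finset.mem_filter, Finset.mem_univ, true_and]
  intro l
  exact (e l).2

end NDEGaux

open NDEGaux in
/-- few words have many points with a degenerate trajectory -/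
theorem NDEG (n q J r F : ℕ) (hq : 1 ≤ q) (hJ : 1 ≤ J) (hJn : 2 * J ≤ n) (hr : 1 ≤ r)
    (hrF : 2 * r ≤ F) (hF : F ≤ n) {K : Type*}
    [Fintype K] [Nonempty K] (g : K → Perm (Fin n)) (hg : MixT r g)
    (b : Fin q → Perm (Fin n)) :
    (Nat.card {w : Fin J → K × (Fin q × Bool) //
        F ≤ #{p | 4 * dst g b (List.ofFn w) p < 3 * J}} : ℝ) ≤
      (2 * n / F : ℝ) ^ r * (2 ^ ((r + 1) * J) * (2 * J / n : ℝ) ^ (r * (J / 4 + 1))) *
        (Fintype.card (K × (Fin q × Bool)) : ℝ) ^ J := by
  classical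
  have hn1 : 1 ≤ n := by omega
  have hn0 : (0 : ℝ) < n := by exact_mod_cast (by omega : 0 < n)
  have hJ0 : (0 : ℝ) < J := by exact_mod_cast (by omega : 0 < J)
  have hF0 : (0 : ℝ) < F := by exact_mod_cast (by omega : 0 < F)
  have hJn' : (2 : ℝ) * J ≤ n := by exact_mod_cast hJn
  set C : ℝ := (Fintype.card (K × (Fin q × Bool)) : ℝ) with hC
  set Z : ℝ := n / (2 * J) with hZ
  have hZ1 : 1 ≤ Z := by rw [hZ, one_le_div (by positivity)]; exact hJn'
  have hZ0 : 0 < Z := by linarith
  set m : ℕ := r * (J / 4 + 1) with hm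
  set Bd : ℝ := 2 ^ ((r + 1) * J) * C ^ J with hBd
  -- words degenerate on a tuple
  have hy : ∀ y : Tup r n, (#{w : Fin J → K × (Fin q × Bool) |
      ∀ l, 4 * dst g b (List.ofFn w) (y l) < 3 * J} : ℝ) ≤ (2 * J / n : ℝ) ^ m * Bd := by
    intro y
    have h1 := GFT n q J r hq hJ (by omega) hn1 g hg b y Z hZ1
    have h2 : (#{w : Fin J → K × (Fin q × Bool) |
        ∀ l, 4 * dst g b (List.ofFn w) (y l) < 3 * J} : ℝ) * Z ^ m ≤
        ∑ w : Fin J → K × (Fin q × Bool),
          Z ^ (∑ l, ((List.ofFn w).length - dst g b (List.ofFn w) (y l))) := by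
      rw [Finset.card_eq_sum_ones, Nat.cast_sum, Finset.sum_mul, Finset.sum_filter]
      apply Finset.sum_le_sum
      intro w _
      split_ifs with hw
      · rw [Nat.cast_one, one_mul]
        apply pow_le_pow_right₀ hZ1
        have h3 : ∀ l ∈ (Finset.univ : Finset (Fin r)), J / 4 + 1 ≤
            (List.ofFn w).length - dst g b (List.ofFn w) (y l) := by
          intro l _
          have := hw l
          rw [List.length_ofFn]
          omega
        have h4 := Finset.card_nsmul_le_sum _ _ _ h3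
        rw [Finset.card_univ, Fintype.card_fin, smul_eq_mul] at h4
        exact h4
      · positivity
    have h3 : Z * (2 * J / n) = 1 := by
      rw [hZ]; field_simp
    rw [h3] at h1
    have h4 : (C * (2 * (1 + 1) ^ r)) ^ J = Bd := by
      rw [hBd, mul_pow, mul_pow]
      norm_num
      rw [← pow_mul, mul_comm (C ^ J), ← pow_add]
      congr 2
      ring
    rw [h4] at h1
    have h5 := h2.trans h1
    have h6 : (2 * J / n : ℝ) ^ m * Z ^ m = 1 := by
      rw [← mul_pow, mul_comm, h3, one_pow]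
    calc (#{w : Fin J → K × (Fin q × Bool) |
        ∀ l, 4 * dst g b (List.ofFn w) (y l) < 3 * J} : ℝ)
        = (#{w : Fin J → K × (Fin q × Bool) |
        ∀ l, 4 * dst g b (List.ofFn w) (y l) < 3 * J} : ℝ) * ((2 * J / n : ℝ) ^ m * Z ^ m) := by
          rw [h6, mul_one]
      _ = (2 * J / n : ℝ) ^ m * ((#{w : Fin J → K × (Fin q × Bool) |
        ∀ l, 4 * dst g b (List.ofFn w) (y l) < 3 * J} : ℝ) * Z ^ m) := by ring
      _ ≤ (2 * J / n : ℝ) ^ m * Bd := mul_le_mul_of_nonneg_left h5 (by positivity)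
  -- double counting
  set bad : Finset (Fin J → K × (Fin q × Bool)) := Finset.univ.filter fun w =>
    F ≤ #{p | 4 * dst g b (List.ofFn w) p < 3 * J} with hbad
  have hdc : (#(bad) : ℝ) * (F / 2) ^ r ≤ (n : ℝ) ^ r * ((2 * J / n : ℝ) ^ m * Bd) := by
    have h1 : (#(bad) : ℝ) * (F / 2) ^ r ≤ ∑ w ∈ bad,
        (#{y : Tup r n | ∀ l, 4 * dst g b (List.ofFn w) (y l) < 3 * J} : ℝ) := by
      rw [← nsmul_eq_mul]
      apply Finset.card_nsmul_le_sum
      intro w hw
      rw [hbad, Finset.mem_filter] at hw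
      have h2 := tuples_ge (r := r) (F := F)
        (Finset.univ.filter fun p => 4 * dst g b (List.ofFn w) p < 3 * J) hw.2
      simp only [Finset.mem_filter, Finset.mem_univ, true_and] at h2
      have h3 : ((F : ℝ) / 2) ^ r ≤ (((F + 1 - r : ℕ) : ℝ)) ^ r := by
        apply pow_le_pow_left₀ (by positivity)
        rw [Nat.cast_sub (by omega)]
        push_cast
        have : (2 : ℝ) * r ≤ F := by exact_mod_cast hrF
        linarith
      refine h3.trans ?_
      exact_mod_cast h2
    have h2 : ∑ w ∈ bad,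
        (#{y : Tup r n | ∀ l, 4 * dst g b (List.ofFn w) (y l) < 3 * J} : ℝ) ≤
        ∑ w : Fin J → K × (Fin q × Bool),
        (#{y : Tup r n | ∀ l, 4 * dst g b (List.ofFn w) (y l) < 3 * J} : ℝ) :=
      Finset.sum_le_sum_of_subset_of_nonneg (Finset.subset_univ _) (fun _ _ _ => by positivity)
    have h3 : ∑ w : Fin J → K × (Fin q × Bool),
        (#{y : Tup r n | ∀ l, 4 * dst g b (List.ofFn w) (y l) < 3 * J} : ℝ) =
        ∑ y : Tup r n, (#{w : Fin J → K × (Fin q × Bool) |
          ∀ l, 4 * dst g b (List.ofFn w) (y l) < 3 * J} : ℝ) := by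
      have e1 : ∀ w : Fin J → K × (Fin q × Bool),
          (#{y : Tup r n | ∀ l, 4 * dst g b (List.ofFn w) (y l) < 3 * J} : ℝ) =
          ∑ y : Tup r n, if (∀ l, 4 * dst g b (List.ofFn w) (y l) < 3 * J) then (1:ℝ) else 0 := by
        intro w; rw [Finset.sum_boole]
      have e2 : ∀ y : Tup r n, (#{w : Fin J → K × (Fin q × Bool) |
          ∀ l, 4 * dst g b (List.ofFn w) (y l) < 3 * J} : ℝ) =
          ∑ w : Fin J → K × (Fin q × Bool),
            if (∀ l, 4 * dst g b (List.ofFn w) (y l) < 3 * J) then (1:ℝ) else 0 := by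
        intro y; rw [Finset.sum_boole]
      simp only [e1, e2]
      rw [Finset.sum_comm]
    have h4 : ∑ y : Tup r n, (#{w : Fin J → K × (Fin q × Bool) |
          ∀ l, 4 * dst g b (List.ofFn w) (y l) < 3 * J} : ℝ) ≤
        (n : ℝ) ^ r * ((2 * J / n : ℝ) ^ m * Bd) := by
      refine (Finset.sum_le_card_nsmul _ _ _ fun y _ => hy y).trans ?_
      rw [nsmul_eq_mul, Finset.card_univ]
      apply mul_le_mul_of_nonneg_right
      · exact_mod_cast card_Tup_le r n
      · positivity
    linarith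
  have hcard : (Nat.card {w : Fin J → K × (Fin q × Bool) //
        F ≤ #{p | 4 * dst g b (List.ofFn w) p < 3 * J}} : ℝ) = #(bad) := by
    rw [Nat.card_eq_fintype_card, Fintype.card_subtype]
  rw [hcard]
  have hFr : (0 : ℝ) < (F / 2) ^ r := by positivity
  rw [← le_div_iff₀ hFr] at hdc
  refine hdc.trans (le_of_eq ?_)
  rw [hBd]
  have e : (2 * n / F : ℝ) ^ r = (n : ℝ) ^ r / (F / 2) ^ r := by
    rw [← div_pow]; congr 1; field_simp
  rw [e]
  ring

end TE852
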